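import Mathlib

namespace Pool.Agent.Results.MP_d721eb_al.Unstable

open Matrix

/-- the largest modulus of a complex eigenvalue of a real matrix -/
noncomputable def rho {n : ℕ} (M : Matrix (Fin n) (Fin n) ℝ) : ℝ :=
  sSup ((fun z : ℂ => ‖z‖) '' spectrum ℂ (M.map Complex.ofReal))

lemma mem_iff {n : ℕ} (M : Matrix (Fin n) (Fin n) ℝ) (z : ℂ) :
    z ∈ spectrum ℂ (M.map Complex.ofReal) ↔ (z • (1 : Matrix _ _ ℂ) - M.map Complex.ofReal).det = 0 := by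
  rw [spectrum.mem_iff, Matrix.isUnit_iff_isUnit_det, isUnit_iff_ne_zero, not_not,
    Algebra.algebraMap_eq_smul_one]

lemma one_lt {n : ℕ} (M : Matrix (Fin n) (Fin n) ℝ) (p : ℝ → ℝ) (hp : Continuous p)
    (h : ∀ x : ℝ, ((x : ℂ) • (1 : Matrix _ _ ℂ) - M.map Complex.ofReal).det = ((p x : ℝ) : ℂ))
    (h1 : p (-1) < 0) (h2 : 0 < p (-2)) : 1 < rho M := by
  obtain ⟨x, hx, e⟩ := intermediate_value_Icc' (show (-2 : ℝ) ≤ -1 by norm_num) hp.continuousOn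
    ⟨h1.le, h2.le⟩
  have hx1 : x ≠ -1 := fun h => by rw [h] at e; exact h1.ne e
  have : (x : ℂ) ∈ spectrum ℂ (M.map Complex.ofReal) := by rw [mem_iff, h, e]; simp
  refine lt_of_lt_of_le ?_ (le_csSup ((Matrix.finite_spectrum _).image _).bddAbove ⟨_, this, rfl⟩)
  simp only [Complex.norm_real, Real.norm_eq_abs]
  exact lt_abs.2 (Or.inr (by have := lt_of_le_of_ne hx.2 hx1; linarith))

noncomputable def W₀ : Matrix (Fin 4) (Fin 4) ℝ :=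
  !![0, 1/2, 1/4, 1/4; 3/4, 0, 1/4, 0; 1, 0, 0, 0; 1, 0, 0, 0]

def B₀ : Matrix (Fin 4) (Fin 4) ℝ := !![1, 0, 1, 1; 0, 0, 0, 0; 1, 0, 1, 1; 1, 0, 1, 1]

lemma rhoB : rho B₀ = 3 := by
  have h : ∀ z : ℂ, (z • (1 : Matrix _ _ ℂ) - B₀.map Complex.ofReal).det = z ^ 3 * (z - 3) := by
    intro z
    have : z • (1 : Matrix _ _ ℂ) - B₀.map Complex.ofReal =
        !![z - 1, 0, -1, -1; 0, z, 0, 0; -1, 0, z - 1, -1; -1, 0, -1, z - 1] := by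
      ext i j; fin_cases i <;> fin_cases j <;> simp [B₀]
    rw [this]
    simp [Matrix.det_succ_row_zero, Fin.sum_univ_succ, Fin.succAbove]
    ring
  refine IsGreatest.csSup_eq ⟨⟨3, by rw [mem_iff, h]; simp, by simp⟩, ?_⟩
  rintro _ ⟨z, hz, rfl⟩
  rw [mem_iff, h] at hz
  rcases mul_eq_zero.1 hz with h0 | h0
  · simp [pow_eq_zero_iff (three_ne_zero) |>.1 h0]
  · simp [sub_eq_zero.1 h0]

lemma inv₀ : (1 + (1 / 2 : ℝ) • B₀)⁻¹ = 1 - (1 / 5 : ℝ) • B₀ := by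
  apply Matrix.inv_eq_left_inv
  ext i j; fin_cases i <;> fin_cases j <;>
    simp [B₀, Matrix.mul_apply, Fin.sum_univ_succ, Matrix.one_apply] <;> norm_num

theorem result : ∃ (n : ℕ) (W B : Matrix (Fin n) (Fin n) ℝ) (π : Fin n → ℝ) (t : ℝ),
    1 ≤ n ∧ (∀ i j, 0 ≤ W i j) ∧ W *ᵥ 1 = 1 ∧ (∃ m, 1 ≤ m ∧ ∀ i j, 0 < (W ^ m) i j) ∧
    (∀ i, 0 < π i) ∧ π ᵥ* W = π ∧ π ⬝ᵥ 1 = 1 ∧
    B.PosSemidef ∧ (∀ i j, 0 ≤ B i j) ∧ B *ᵥ 1 ≤ rho B • (1 : Fin n → ℝ) ∧ 0 < π ⬝ᵥ B *ᵥ 1 ∧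
    0 < rho B ∧ 0 < t ∧ t < 2 / rho B ∧
    1 < rho (W * (1 - t • B)) ∧ 1 < rho (1 - W + (1 + t • B)⁻¹ * ((2 : ℝ) • W - 1)) := by
  refine ⟨4, W₀, B₀, ![8/17, 4/17, 3/17, 2/17], 1/2, by norm_num, ?_, ?_, ⟨4, by norm_num, ?_⟩,
    ?_, ?_, ?_, ?_, ?_, ?_, ?_, ?_, by norm_num, ?_, ?_, ?_⟩
  · intro i j; fin_cases i <;> fin_cases j <;> simp [W₀] <;> norm_num
  · ext i; fin_cases i <;> simp [W₀, Matrix.mulVec, dotProduct, Fin.sum_univ_succ] <;> norm_num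
  · have h2 : W₀ ^ 2 = !![7/8, 0, 1/8, 0; 1/4, 3/8, 3/16, 3/16; 0, 1/2, 1/4, 1/4;
        0, 1/2, 1/4, 1/4] := by
      ext i j; fin_cases i <;> fin_cases j <;>
        simp [W₀, pow_two, Matrix.mul_apply, Fin.sum_univ_succ] <;> norm_num
    rw [show W₀ ^ 4 = W₀ ^ 2 * W₀ ^ 2 from pow_add W₀ 2 2, h2]
    intro i j; fin_cases i <;> fin_cases j <;>
      simp [Matrix.mul_apply, Fin.sum_univ_succ] <;> norm_num
  · intro i; fin_cases i <;> simp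
  · ext i; fin_cases i <;> simp [W₀, Matrix.vecMul, dotProduct, Fin.sum_univ_succ] <;> norm_num
  · simp [dotProduct, Fin.sum_univ_succ]; norm_num
  · have : B₀ = vecMulVec ![1, 0, 1, 1] (star ![1, 0, 1, 1]) := by
      ext i j; fin_cases i <;> fin_cases j <;> simp [B₀, vecMulVec]
    rw [this]
    exact Matrix.posSemidef_vecMulVec_self_star _
  · intro i j; fin_cases i <;> fin_cases j <;> simp [B₀]
  · rw [rhoB]; intro i
    fin_cases i <;> simp [B₀, Matrix.mulVec, dotProduct, Fin.sum_univ_succ] <;> norm_num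
  · simp [B₀, Matrix.mulVec, dotProduct, Fin.sum_univ_succ]; norm_num
  · rw [rhoB]; norm_num
  · rw [rhoB]; norm_num
  · have e : W₀ * (1 - (1 / 2 : ℝ) • B₀) = !![-1/4, 1/2, 0, 0; 1/4, 0, -1/4, -1/2;
        1/2, 0, -1/2, -1/2; 1/2, 0, -1/2, -1/2] := by
      ext i j; fin_cases i <;> fin_cases j <;>
        simp [W₀, B₀, Matrix.mul_apply, Fin.sum_univ_succ, Matrix.one_apply] <;> norm_num
    rw [e]
    refine one_lt _ (fun x => x ^ 4 + 5 / 4 * x ^ 3 + 1 / 8 * x ^ 2 + 1 / 16 * x) (by fun_prop)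
      (fun x => ?_) (by norm_num) (by norm_num)
    have : (x : ℂ) • (1 : Matrix _ _ ℂ) - (!![-1/4, 1/2, 0, 0; 1/4, 0, -1/4, -1/2;
        1/2, 0, -1/2, -1/2; 1/2, 0, -1/2, -1/2] : Matrix (Fin 4) (Fin 4) ℝ).map Complex.ofReal =
        !![(x : ℂ) + 1/4, -1/2, 0, 0; -1/4, x, 1/4, 1/2;
          -1/2, 0, x + 1/2, 1/2; -1/2, 0, 1/2, x + 1/2] := by
      ext i j; fin_cases i <;> fin_cases j <;> simp <;> ring
    rw [this]
    simp [Matrix.det_succ_row_zero, Fin.sum_univ_succ, Fin.succAbove]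
    ring
  · have e : 1 - W₀ + (1 + (1 / 2 : ℝ) • B₀)⁻¹ * ((2 : ℝ) • W₀ - 1) =
        !![-3/5, 3/10, 7/20, 7/20; 3/4, 0, 1/4, 0; 2/5, -1/5, 1/10, 1/10;
          2/5, -1/5, 1/10, 1/10] := by
      rw [inv₀]
      ext i j; fin_cases i <;> fin_cases j <;>
        simp [W₀, B₀, Matrix.mul_apply, Fin.sum_univ_succ, Matrix.one_apply] <;> norm_num
    rw [e]
    refine one_lt _ (fun x => x ^ 4 + 2 / 5 * x ^ 3 - 23 / 40 * x ^ 2 + 3 / 20 * x) (by fun_prop)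
      (fun x => ?_) (by norm_num) (by norm_num)
    have : (x : ℂ) • (1 : Matrix _ _ ℂ) - (!![-3/5, 3/10, 7/20, 7/20; 3/4, 0, 1/4, 0;
        2/5, -1/5, 1/10, 1/10; 2/5, -1/5, 1/10, 1/10] :
          Matrix (Fin 4) (Fin 4) ℝ).map Complex.ofReal =
        !![(x : ℂ) + 3/5, -3/10, -7/20, -7/20; -3/4, x, -1/4, 0; -2/5, 1/5, x - 1/10, -1/10;
          -2/5, 1/5, -1/10, x - 1/10] := by
      ext i j; fin_cases i <;> fin_cases j <;> simp <;> ring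
    rw [this]
    simp [Matrix.det_succ_row_zero, Fin.sum_univ_succ, Fin.succAbove]
    ring

end Pool.Agent.Results.MP_d721eb_al.Unstable
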